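import Mathlib
import Pool.Agent.Y839.RK.Gen

/-!
# The reals that are `≤_rK`-below some Martin-Löf random real form a meagre set

For part (c) of the question: the reals which are `≤_rK`-reducible to some Martin-Löf random
real form a meagre set (while they are almost all reals in the sense of measure: a random real is
reducible to itself). So the answer to (c) is negative, not only for one real `A`, but for
comeagrely many.
-/

set_option autoImplicit false

namespace Pool.Agent.Results.MP_b43e09_lc.MeagreLowerCone

open Pool.Agent.Helper926.RK

/-- The set of the reals `A` for which there are a Martin-Löf random real `Z` and a prefix-free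
machine `U` with a condition such that `K_U(A↾n | Z↾n)` is bounded is meagre in Cantor space. For
every universal machine `U` it contains every Martin-Löf random real `A` (with `Z = A`). -/
theorem result :
    IsMeagre {A : ℕ → Bool | ∃ Z : ℕ → Bool, MLRandom Z ∧
      ∃ U : List Bool → List Bool →. List Bool, IsPrefixFreeMachine U ∧ RKReducible U A Z} ∧
    ∀ U : List Bool → List Bool →. List Bool, IsUniversal U → ∀ A : ℕ → Bool, MLRandom A →
      ∃ Z : ℕ → Bool, MLRandom Z ∧ RKReducible U A Z := by
  refine ⟨?_, fun U hU A hA => ⟨A, hA, Y839.RK.copy hU A⟩⟩
  refine Filter.mem_of_superset Y839.RK.gen ?_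
  rintro A hA ⟨Z, hZ, U, hU, hred⟩
  exact hA Z hZ U hU.partrec hred

end Pool.Agent.Results.MP_b43e09_lc.MeagreLowerCone
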